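import Pool.Agent.Helper74.CO.Goals

/-!
# Packet CO-FEJ (MP_c5396e_co): Fejér weights
-/

set_option autoImplicit false

namespace Pool.Agent.Helper82.CO

open Pool.Agent.Helper74.CO
open Finset

theorem norm_ex (t : ℝ) : ‖ex t‖ = 1 := by
  have : ex t = Complex.exp ((2 * Real.pi * t : ℝ) * Complex.I) := by
    unfold ex; push_cast; rfl
  rw [this, Complex.norm_exp_ofReal_mul_I]

theorem ex_pow (t : ℝ) (j : ℕ) : ex (j * t) = ex t ^ j := by
  unfold ex
  rw [← Complex.exp_nat_mul]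
  congr 1
  push_cast
  ring

theorem ex_int (t : ℝ) (j : ℕ) (n : ℤ) : ex (j * (t + n)) = ex (j * t) := by
  unfold ex
  have : (2 * Real.pi * ((j * (t + n) : ℝ) : ℂ) * Complex.I : ℂ) =
      2 * Real.pi * ((j * t : ℝ) : ℂ) * Complex.I + ((j * n : ℤ) : ℂ) * (2 * Real.pi * Complex.I) := by
    push_cast
    ring
  rw [this, Complex.exp_add, Complex.exp_int_mul_two_pi_mul_I, mul_one]

theorem norm_sum_le (K : ℕ) (t : ℝ) : ‖∑ j ∈ range K, ex (j * t)‖ ≤ K := by
  calc ‖∑ j ∈ range K, ex (j * t)‖ ≤ ∑ j ∈ range K, ‖ex (j * t)‖ := _root_.norm_sum_le _ _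
    _ = K := by simp [norm_ex]

theorem norm_ex_sub_one (t : ℝ) : ‖ex t - 1‖ = 2 * |Real.sin (Real.pi * t)| := by
  have h := Complex.norm_exp_I_mul_ofReal_sub_one (2 * Real.pi * t)
  have e : ex t = Complex.exp (Complex.I * ((2 * Real.pi * t : ℝ) : ℂ)) := by
    unfold ex; push_cast; ring_nf
  rw [e, h]
  rw [show 2 * Real.pi * t / 2 = Real.pi * t by ring, norm_mul]
  simp

theorem sin_lower (r t : ℝ) (_hr : 0 < r) (h1 : r ≤ |t|) (h2 : |t| ≤ 1 - r) :
    2 * r ≤ |Real.sin (Real.pi * t)| := by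
  have hpi := Real.pi_pos
  have e : |Real.sin (Real.pi * t)| = |Real.sin (Real.pi * |t|)| := by
    rcases abs_cases t with ⟨h, _⟩ | ⟨h, _⟩
    · rw [h]
    · rw [h, mul_neg, Real.sin_neg, abs_neg]
  rw [e]
  refine le_trans ?_ (le_abs_self _)
  rcases le_total |t| (1 / 2) with h | h
  · have := Real.mul_le_sin (x := Real.pi * |t|) (by positivity) (by nlinarith)
    have e2 : 2 / Real.pi * (Real.pi * |t|) = 2 * |t| := by field_simp
    rw [e2] at this
    linarith
  · have e3 : Real.sin (Real.pi * |t|) = Real.sin (Real.pi * (1 - |t|)) := by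
      rw [← Real.sin_pi_sub]
      congr 1
      ring
    have h0 : (0 : ℝ) ≤ 1 - |t| := by linarith
    have := Real.mul_le_sin (x := Real.pi * (1 - |t|)) (by positivity) (by nlinarith)
    have e2 : 2 / Real.pi * (Real.pi * (1 - |t|)) = 2 * (1 - |t|) := by field_simp
    rw [e2] at this
    rw [e3]
    linarith

theorem tail (K : ℕ) (r t : ℝ) (hK : 1 ≤ K) (hr : 0 < r) (h1 : r ≤ |t|) (h2 : |t| ≤ 1 - r) :
    fw K t ≤ 1 / (2 * K * r) ^ 2 := by
  have hK' : (0 : ℝ) < K := by exact_mod_cast hK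
  have hs := sin_lower r t hr h1 h2
  have hn : ‖∑ j ∈ range K, ex (j * t)‖ * ‖ex t - 1‖ ≤ 2 := by
    rw [← norm_mul]
    have : (∑ j ∈ range K, ex (j * t)) * (ex t - 1) = ex t ^ K - 1 := by
      rw [← geom_sum_mul]
      congr 1
      exact Finset.sum_congr rfl (fun j _ => ex_pow t j)
    rw [this]
    calc ‖ex t ^ K - 1‖ ≤ ‖ex t ^ K‖ + ‖(1 : ℂ)‖ := norm_sub_le _ _
      _ = 2 := by rw [norm_pow, norm_ex]; norm_num
  rw [norm_ex_sub_one] at hn
  set N := ‖∑ j ∈ range K, ex (j * t)‖ with hN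
  have hN0 : 0 ≤ N := norm_nonneg _
  have h3 : N * (2 * r) ≤ 1 := by
    have := mul_le_mul_of_nonneg_left hs hN0
    linarith
  unfold fw
  rw [← hN, div_le_div_iff₀ (by positivity) (by positivity), one_mul]
  have h4 : N ^ 2 * (2 * K * r) ^ 2 = (N * (2 * r)) ^ 2 * K ^ 2 := by ring
  rw [h4]
  have h5 : (N * (2 * r)) ^ 2 ≤ 1 := by
    have h0 : 0 ≤ N * (2 * r) := by positivity
    nlinarith
  have h6 : (0 : ℝ) ≤ (K : ℝ) ^ 2 := by positivity
  nlinarith

theorem near (K : ℕ) (t : ℝ) (hK : 1 ≤ K) (ht : |t| ≤ 1 / (6 * K)) : 1 / 4 ≤ fw K t := by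
  have hK' : (0 : ℝ) < K := by exact_mod_cast hK
  have hpi := Real.pi_pos
  have hre : ∀ j ∈ range K, (1 / 2 : ℝ) ≤ (ex (j * t)).re := by
    intro j hj
    rw [mem_range] at hj
    have hj' : (j : ℝ) ≤ K := by exact_mod_cast hj.le
    have e : ex (j * t) = Complex.exp ((2 * Real.pi * (j * t) : ℝ) * Complex.I) := by
      unfold ex; push_cast; ring_nf
    rw [e, Complex.exp_ofReal_mul_I_re, ← Real.cos_abs, ← Real.cos_pi_div_three]
    apply Real.cos_le_cos_of_nonneg_of_le_pi (abs_nonneg _) (by linarith)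
    rw [abs_mul (2 * Real.pi), abs_of_pos (by positivity : (0 : ℝ) < 2 * Real.pi), abs_mul, Nat.abs_cast]
    have h1 : (j : ℝ) * |t| ≤ 1 / 6 := by
      calc (j : ℝ) * |t| ≤ K * (1 / (6 * K)) := by
            apply mul_le_mul hj' ht (abs_nonneg _) hK'.le
        _ = 1 / 6 := by field_simp
    nlinarith
  have hsum : (K : ℝ) / 2 ≤ (∑ j ∈ range K, ex (j * t)).re := by
    rw [Complex.re_sum]
    calc (K : ℝ) / 2 = ∑ j ∈ range K, (1 / 2 : ℝ) := by simp; ring
      _ ≤ _ := Finset.sum_le_sum hre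
  have hN : (K : ℝ) / 2 ≤ ‖∑ j ∈ range K, ex (j * t)‖ :=
    le_trans hsum (le_trans (le_abs_self _) (Complex.abs_re_le_norm _))
  unfold fw
  rw [le_div_iff₀ (by positivity)]
  nlinarith

theorem t_FEJ : Pool.Agent.Helper74.CO.FEJ := by
  refine ⟨fun K t => ⟨by unfold fw; positivity, ?_⟩, fun K t n => ?_, fun K r t => tail K r t,
    fun K t => near K t, fun t => ?_⟩
  · unfold fw
    rcases Nat.eq_zero_or_pos K with h | h
    · subst h; simp
    · have hK' : (0 : ℝ) < K := by exact_mod_cast h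
      rw [div_le_one (by positivity)]
      have := norm_sum_le K t
      have h0 := norm_nonneg (∑ j ∈ range K, ex (j * t))
      nlinarith
  · unfold fw
    simp only [ex_int]
  · unfold fw
    simp [norm_ex]

end Pool.Agent.Helper82.CO
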